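import Mathlib
import Pool.Agent.W988.WD.Defs
import Pool.Agent.W988.WD.InfA
import Pool.Agent.W988.WD.FinA
import Pool.Agent.W196.WD.CPT
import Pool.Agent.W481.WD.KSET
import Pool.Agent.W395.WD.LOC
import Pool.Agent.W978.WD.ZSUM
import Pool.Agent.W67.WD.CMP
import Pool.Agent.W85.WDX.ABS
import Pool.Agent.W32.WD.MU
import Pool.Agent.W933.WD.Spec
import Pool.Agent.W101.WD.GEN
import Pool.Agent.W372.WD.Avg
import Pool.Agent.W74.WD.FAITH
import Pool.Agent.W249.WD.LSC
import Pool.Agent.W179.WD.COV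

/-!
MP_7e3bdd_an, second question: an irreducible inclusion `N ⊆ M` of factors on a separable Hilbert
space with a normal conditional expectation has the weak relative Dixmier property.  The same holds
without irreducibility when `N` is a factor and the normal conditional expectation is faithful.
-/

set_option autoImplicit false
open scoped InnerProductSpace Topology
open Pool.Agent.W988.WD

namespace Pool.Agent.Results.MP_7e3bdd_an.ExpectedInclusions

theorem result :
    ∀ (H : Type) [NormedAddCommGroup H] [InnerProductSpace ℂ H] [CompleteSpace H]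
      [TopologicalSpace.SeparableSpace H] (N M : VonNeumannAlgebra H)
      (E : (H →L[ℂ] H) → (H →L[ℂ] H)), (∀ a ∈ N, a ∈ M) → IsNCE N M E →
      (IrredIn N M → ∀ x ∈ M, ∃ c : ℂ, c • (1 : H →L[ℂ] H) ∈ KN N x) ∧
      (Factor N → (∀ x ∈ M, E (star x * x) = 0 → x = 0) →
        ∀ x ∈ M, ∃ z ∈ KN N x, z ∈ M ∧ ∀ y ∈ N, z * y = y * z) := by
  intro H _ _ _ _ N M E hNM hE
  have cpt := Pool.Agent.W196.WD.p_CPT
  have kset := Pool.Agent.W481.WD.p_KSET
  have zsum := Pool.Agent.W978.WD.ZSUM.p_ZSUM cpt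
  have cmp := Pool.Agent.W67.WD.p_CMP Pool.Agent.W395.WD.p_LOC zsum
  have ab := Pool.Agent.W85.WDX.p_ABS zsum cmp
  have mu := Pool.Agent.W32.WDM.p_MU zsum cmp
  have spec := Pool.Agent.W933.WD.p_SPEC
  have gen := Pool.Agent.W101.WD.p_GEN cpt
  have avg := Pool.Agent.W372.WD.p_AVG cpt
  have lsc := Pool.Agent.W249.WD.p_LSC cpt
  have faith := Pool.Agent.W74.WD.p_FAITH cpt lsc
  have cov : S_COV := Pool.Agent.W179.WD.p_COV zsum cmp
  have main : Factor N → (∀ x ∈ M, E (star x * x) = 0 → x = 0) →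
      ∀ x ∈ M, ∃ z ∈ KN N x, z ∈ M ∧ ∀ y ∈ N, z * y = y * z := by
    intro hF hf x hx
    by_cases hInf : Infin N
    · exact gen_inf cpt kset lsc ab mu spec gen avg H N M E hNM hF hInf hE hf x hx
    · exact gen_fin cpt kset lsc cov spec H N M E hNM hF hInf hE hf x hx
  refine ⟨?_, main⟩
  intro hIrr x hx
  obtain ⟨z, hzK, hzM, hz⟩ := main (fun z hz hz' => hIrr z (hNM z hz) hz')
    (faith H N M E hNM hIrr hE) x hx
  obtain ⟨c, rfl⟩ := hIrr z hzM hz
  exact ⟨c, hzK⟩

end Pool.Agent.Results.MP_7e3bdd_an.ExpectedInclusions
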