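import Mathlib
import Pool.Agent.W26.WD.Defs
import Pool.Agent.W26.WD.Final

/-!
Every irreducible inclusion of factors on a separable Hilbert space which admits a normal
conditional expectation has the weak relative Dixmier property.
-/

set_option autoImplicit false
open scoped InnerProductSpace

namespace Pool.Agent.Results.MP_7e3bdd_an.NormalExpectation

/-- An irreducible inclusion `N ⊆ M` of factors on a separable Hilbert space with a normal
conditional expectation `E : M → N` has the weak relative Dixmier property: for every `x ∈ M` some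
scalar multiple of the identity lies in the weakly closed convex hull of the operators `u x u*`,
`u` a unitary of `N`. -/
theorem result (H : Type) [NormedAddCommGroup H] [InnerProductSpace ℂ H] [CompleteSpace H]
    [TopologicalSpace.SeparableSpace H] (N M : VonNeumannAlgebra H)
    (hNM : ∀ a ∈ N, a ∈ M)
    (_hM : ∀ z ∈ M, (∀ y ∈ M, z * y = y * z) → ∃ c : ℂ, z = c • (1 : H →L[ℂ] H))
    (_hN : ∀ z ∈ N, (∀ y ∈ N, z * y = y * z) → ∃ c : ℂ, z = c • (1 : H →L[ℂ] H))
    (hirr : ∀ z ∈ M, (∀ y ∈ N, z * y = y * z) → ∃ c : ℂ, z = c • (1 : H →L[ℂ] H))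
    (hE : ∃ E : (H →L[ℂ] H) → (H →L[ℂ] H), Pool.Agent.W26.WD.IsNormalExpectation N M E) :
    ∀ x ∈ M, ∃ c : ℂ, ∀ (n : ℕ) (ξ η : Fin n → H) (ε : ℝ), 0 < ε →
      ∃ y ∈ convexHull ℝ
          {T : H →L[ℂ] H | ∃ u ∈ unitary (H →L[ℂ] H), u ∈ N ∧ T = u * x * star u},
        ∀ i : Fin n, ‖⟪η i, (y - c • (1 : H →L[ℂ] H)) (ξ i)⟫_ℂ‖ < ε := by
  intro x hx
  obtain ⟨E, hE⟩ := hE
  exact Pool.Agent.W26.WD.main_irr hE hNM hirr hx

end Pool.Agent.Results.MP_7e3bdd_an.NormalExpectation
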